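import Mathlib

/-!
# Counting the dependent `r`-sets of a paving matroid
-/

set_option autoImplicit false

namespace Pool.Agent.Q164.Pav

open Finset

variable {α : Type*} [DecidableEq α]

/-- The independent sets of a paving matroid of rank `r` on the finite set `E`. -/
structure PavSys (E : Finset α) (r : ℕ) (Ind : Finset α → Prop) : Prop where
  small : ∀ S ⊆ E, S.card < r → Ind S
  aug : ∀ S B, Ind S → Ind B → S.card < B.card → ∃ x ∈ B, x ∉ S ∧ Ind (insert x S)

/-- `F` contains an independent set with `r` elements. -/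
def Sp (r : ℕ) (Ind : Finset α → Prop) (F : Finset α) : Prop :=
  ∃ B ⊆ F, B.card = r ∧ Ind B

/-- `F` has no coloop -/
def CL (r : ℕ) (Ind : Finset α → Prop) (F : Finset α) : Prop := ∀ e ∈ F, Sp r Ind (F.erase e)

open scoped Classical in
/-- the dependent `r`-subsets of `F` -/
noncomputable def nbs (r : ℕ) (Ind : Finset α → Prop) (F : Finset α) : Finset (Finset α) :=
  (F.powersetCard r).filter fun D => ¬ Ind D

variable {E : Finset α} {r : ℕ} {Ind : Finset α → Prop}

open scoped Classical in
omit [DecidableEq α] in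
lemma mem_nbs (F D : Finset α) : D ∈ nbs r Ind F ↔ D ⊆ F ∧ D.card = r ∧ ¬ Ind D := by
  unfold nbs
  rw [Finset.mem_filter, Finset.mem_powersetCard, and_assoc]

omit [DecidableEq α] in
lemma Sp.mono {F F' : Finset α} (h : Sp r Ind F) (hF : F ⊆ F') : Sp r Ind F' := by
  obtain ⟨B, hB, h1, h2⟩ := h
  exact ⟨B, hB.trans hF, h1, h2⟩

/-- Two non-spanning sets whose intersection has at least `r - 1` elements have a non-spanning
union. -/
lemma PavSys.merge (h : PavSys E r Ind) {X Y : Finset α} (hXE : X ⊆ E)
    (hX : ¬ Sp r Ind X) (hY : ¬ Sp r Ind Y) (hXY : r ≤ (X ∩ Y).card + 1) (hr : 1 ≤ r) :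
    ¬ Sp r Ind (X ∪ Y) := by
  rintro ⟨B, hB, hBc, hBi⟩
  obtain ⟨S, hS, hSc⟩ := Finset.exists_subset_card_eq (s := X ∩ Y) (n := r - 1) (by omega)
  have hSi : Ind S := h.small S ((hS.trans Finset.inter_subset_left).trans hXE) (by omega)
  obtain ⟨x, hx, hxS, hxi⟩ := h.aug S B hSi hBi (by omega)
  have hc : (insert x S).card = r := by
    rw [Finset.card_insert_of_notMem hxS]
    omega
  have hxXY := hB hx
  rw [Finset.mem_union] at hxXY
  rcases hxXY with hx' | hx'
  · exact hX ⟨insert x S, Finset.insert_subset hx' (hS.trans Finset.inter_subset_left), hc, hxi⟩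
  · exact hY ⟨insert x S, Finset.insert_subset hx' (hS.trans Finset.inter_subset_right), hc, hxi⟩

lemma not_sp_of_mem_nbs {F D : Finset α} (hD : D ∈ nbs r Ind F) : ¬ Sp r Ind D := by
  rintro ⟨B, hB, hBc, hBi⟩
  rw [mem_nbs] at hD
  have := Finset.eq_of_subset_of_card_le hB (by omega)
  rw [this] at hBi
  exact hD.2.2 hBi

/-- double counting -/
lemma sum_nbs (F : Finset α) (_hF : r ≤ F.card) :
    ∑ e ∈ F, (nbs r Ind (F.erase e)).card = (F.card - r) * (nbs r Ind F).card := by
  classical
  have h1 : ∀ e ∈ F, (nbs r Ind (F.erase e)).card = ∑ D ∈ nbs r Ind F, if e ∉ D then 1 else 0 := by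
    intro e he
    rw [← Finset.sum_filter, Finset.sum_const, smul_eq_mul, mul_one]
    congr 1
    ext D
    rw [Finset.mem_filter, mem_nbs, mem_nbs, Finset.subset_erase]
    tauto
  rw [Finset.sum_congr rfl h1, Finset.sum_comm]
  have h2 : ∀ D ∈ nbs r Ind F, (∑ e ∈ F, if e ∉ D then 1 else 0) = F.card - r := by
    intro D hD
    rw [mem_nbs] at hD
    rw [← Finset.sum_filter, Finset.sum_const, smul_eq_mul, mul_one]
    have : F.filter (fun e => e ∉ D) = F \ D := by
      ext x; rw [Finset.mem_filter, Finset.mem_sdiff]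
    rw [this, Finset.card_sdiff_of_subset hD.1, hD.2.1]
  rw [Finset.sum_congr rfl h2, Finset.sum_const, smul_eq_mul, mul_comm]

/-- If deleting `e` creates a coloop then the dependent `r`-sets avoiding `e` avoid the coloop. -/
lemma PavSys.nbs_bad (h : PavSys E r Ind) (hr : 1 ≤ r) {F : Finset α} (hFE : F ⊆ E)
    (hF : CL r Ind F) {e f : α} (he : e ∈ F) (hf : f ∈ F.erase e)
    (hbad : ¬ Sp r Ind ((F.erase e).erase f)) :
    (nbs r Ind (F.erase e)).card ≤ (F.card - 2).choose r := by
  have hsub : nbs r Ind (F.erase e) ⊆ ((F.erase e).erase f).powersetCard r := by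
    intro D hD
    have hD' := hD
    rw [mem_nbs] at hD
    rw [Finset.mem_powersetCard]
    refine ⟨?_, hD.2.1⟩
    rw [Finset.subset_erase]
    refine ⟨hD.1, fun hfD => ?_⟩
    have hm := h.merge (X := (F.erase e).erase f) (Y := D)
      (((Finset.erase_subset _ _).trans (Finset.erase_subset _ _)).trans hFE) hbad
      (not_sp_of_mem_nbs hD') ?_ hr
    · apply hm
      apply (hF e he).mono
      intro x hx
      rw [Finset.mem_union, Finset.mem_erase]
      by_cases hxf : x = f
      · right; rw [hxf]; exact hfD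
      · left; exact ⟨hxf, hx⟩
    · have h3 : D.erase f ⊆ (F.erase e).erase f ∩ D := by
        intro x hx
        rw [Finset.mem_erase] at hx
        rw [Finset.mem_inter, Finset.mem_erase]
        exact ⟨⟨hx.1, hD.1 hx.2⟩, hx.2⟩
      have h4 := Finset.card_le_card h3
      rw [Finset.card_erase_of_mem hfD, hD.2.1] at h4
      omega
  have := Finset.card_le_card hsub
  rw [Finset.card_powersetCard, Finset.card_erase_of_mem hf, Finset.card_erase_of_mem he] at this
  exact this

/-- at most two elements are bad if `N ≥ 3` -/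
lemma PavSys.card_bad (h : PavSys E r Ind) (hr : 1 ≤ r) {F : Finset α} (hFE : F ⊆ E)
    (hF : CL r Ind F) (hc : r + 3 ≤ F.card) :
    ∃ Bad ⊆ F, Bad.card ≤ 2 ∧ ∀ e ∈ F, e ∉ Bad → CL r Ind (F.erase e) := by
  classical
  by_cases hex : ∃ e ∈ F, ¬ CL r Ind (F.erase e)
  swap
  · push Not at hex
    exact ⟨∅, Finset.empty_subset _, by simp, fun e he _ => hex e he⟩
  obtain ⟨e, he, hne⟩ := hex
  unfold CL at hne
  push Not at hne
  obtain ⟨f, hf, hbad⟩ := hne
  have hfF := Finset.mem_of_mem_erase hf
  have hfe := Finset.ne_of_mem_erase hf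
  refine ⟨{e, f}, ?_, Finset.card_le_two, ?_⟩
  · intro x hx
    rw [Finset.mem_insert, Finset.mem_singleton] at hx
    rcases hx with rfl | rfl
    · exact he
    · exact hfF
  intro g hg hgn k hk
  rw [Finset.mem_insert, Finset.mem_singleton, not_or] at hgn
  by_contra hbad2
  have hkF := Finset.mem_of_mem_erase hk
  have hkg := Finset.ne_of_mem_erase hk
  have hm := h.merge (X := (F.erase e).erase f) (Y := (F.erase g).erase k)
      (((Finset.erase_subset _ _).trans (Finset.erase_subset _ _)).trans hFE) hbad hbad2 ?_ hr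
  · -- the union contains `F.erase c` for some `c`
    have hun : ∃ c ∈ F, F.erase c ⊆ (F.erase e).erase f ∪ (F.erase g).erase k := by
      by_cases h1 : k = e ∨ k = f
      · refine ⟨k, hkF, ?_⟩
        intro x hx
        rw [Finset.mem_erase] at hx
        rw [Finset.mem_union, Finset.mem_erase, Finset.mem_erase, Finset.mem_erase, Finset.mem_erase]
        by_cases hxg : x = g
        · left
          subst hxg
          exact ⟨hgn.2, hgn.1, hx.2⟩
        · right
          exact ⟨hx.1, hxg, hx.2⟩
      · push Not at h1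
        refine ⟨e, he, ?_⟩
        intro x hx
        rw [Finset.mem_erase] at hx
        rw [Finset.mem_union, Finset.mem_erase, Finset.mem_erase, Finset.mem_erase, Finset.mem_erase]
        by_cases hxf : x = f
        · right
          subst hxf
          exact ⟨fun h => h1.2 h.symm, fun h => hgn.2 h.symm, hx.2⟩
        · left
          exact ⟨hxf, hx.1, hx.2⟩
    obtain ⟨c, hc', hsub⟩ := hun
    exact hm ((hF c hc').mono hsub)
  · have h1 : ((F.erase e).erase f).card = F.card - 2 := by
      rw [Finset.card_erase_of_mem hf, Finset.card_erase_of_mem he]; omega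
    have h2 : ((F.erase g).erase k).card = F.card - 2 := by
      rw [Finset.card_erase_of_mem hk, Finset.card_erase_of_mem hg]; omega
    have h3 := Finset.card_union_add_card_inter ((F.erase e).erase f) ((F.erase g).erase k)
    have h4 : ((F.erase e).erase f ∪ (F.erase g).erase k).card ≤ F.card := by
      apply Finset.card_le_card
      apply Finset.union_subset
      · exact (Finset.erase_subset _ _).trans (Finset.erase_subset _ _)
      · exact (Finset.erase_subset _ _).trans (Finset.erase_subset _ _)
    omega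

/-- corank two -/
lemma PavSys.nbs_two (h : PavSys E r Ind) (hr : 1 ≤ r) {F : Finset α} (hFE : F ⊆ E)
    (hF : CL r Ind F) (hc : F.card = r + 2) : 2 * (nbs r Ind F).card ≤ r + 2 := by
  have h1 := sum_nbs (r := r) (Ind := Ind) F (by omega)
  have h2 : ∀ e ∈ F, (nbs r Ind (F.erase e)).card ≤ 1 := by
    intro e he
    rw [Finset.card_le_one]
    intro D hD D' hD'
    by_contra hne
    have hD1 := hD
    have hD1' := hD'
    rw [mem_nbs] at hD hD'
    have hce : (F.erase e).card = r + 1 := by
      rw [Finset.card_erase_of_mem he, hc]; rfl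
    have hcu : (D ∪ D').card ≤ r + 1 := by
      rw [← hce]
      exact Finset.card_le_card (Finset.union_subset hD.1 hD'.1)
    have hui := Finset.card_union_add_card_inter D D'
    have hm := h.merge (X := D) (Y := D') ((hD.1.trans (Finset.erase_subset _ _)).trans hFE)
      (not_sp_of_mem_nbs hD1) (not_sp_of_mem_nbs hD1') (by omega) hr
    apply hm
    apply (hF e he).mono
    have hlt : D.card < (D ∪ D').card := by
      apply Finset.card_lt_card
      rw [Finset.ssubset_iff_subset_ne]
      refine ⟨Finset.subset_union_left, fun h5 => hne ?_⟩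
      have h6 : D' ⊆ D := by
        rw [h5]; exact Finset.subset_union_right
      exact (Finset.eq_of_subset_of_card_le h6 (by omega)).symm
    have h7 : D ∪ D' = F.erase e :=
      Finset.eq_of_subset_of_card_le (Finset.union_subset hD.1 hD'.1) (by omega)
    rw [h7]
  have h3 : ∑ e ∈ F, (nbs r Ind (F.erase e)).card ≤ ∑ e ∈ F, 1 := Finset.sum_le_sum h2
  rw [Finset.sum_const, smul_eq_mul, mul_one, h1, hc] at h3
  have h4 : r + 2 - r = 2 := by omega
  rw [h4] at h3
  exact h3

/-- **The bound for the number of dependent `r`-sets.** -/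
theorem PavSys.bound (h : PavSys E r Ind) (hr : 1 ≤ r) : ∀ (n : ℕ) (F : Finset α), F ⊆ E →
    CL r Ind F → F.card = r + n + 2 →
    (n + 2) * (nbs r Ind F).card ≤ (n + 2) * (r + n).choose r + (r + n).choose (r - 1) := by
  classical
  intro n
  induction n with
  | zero =>
    intro F hFE hF hc
    have h1 := h.nbs_two hr hFE hF (by omega)
    have h2 : (r + 0).choose r = 1 := by simp
    have h3 : (r + 0).choose (r - 1) = r := by
      obtain ⟨q, rfl⟩ : ∃ q, r = q + 1 := ⟨r - 1, by omega⟩
      simp
    rw [h2, h3]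
    omega
  | succ n ih =>
    intro F hFE hF hc
    obtain ⟨Bad, hBadF, hBad2, hgood⟩ := h.card_bad hr hFE hF (by omega)
    have hsum := sum_nbs (r := r) (Ind := Ind) F (by omega)
    have hcr : F.card - r = n + 3 := by omega
    rw [hcr] at hsum
    set a := (r + n).choose r with ha
    set b := (r + n).choose (r - 1) with hb
    have hab : (r + n + 1).choose r = a + b := by
      obtain ⟨q, rfl⟩ : ∃ q, r = q + 1 := ⟨r - 1, by omega⟩
      rw [Nat.choose_succ_succ, ha, hb]
      simp only [Nat.add_sub_cancel]
      rw [add_comm]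
    -- bounds for the terms
    have hbad : ∀ e ∈ Bad, (n + 2) * (nbs r Ind (F.erase e)).card ≤ (n + 2) * (a + b) := by
      intro e he
      have heF := hBadF he
      by_cases hcl : CL r Ind (F.erase e)
      · have := ih (F.erase e) ((Finset.erase_subset _ _).trans hFE) hcl (by
          rw [Finset.card_erase_of_mem heF, hc]; omega)
        nlinarith
      · unfold CL at hcl
        push Not at hcl
        obtain ⟨f, hf, hbf⟩ := hcl
        have := h.nbs_bad hr hFE hF heF hf hbf
        rw [hc, show r + (n + 1) + 2 - 2 = r + n + 1 by omega, hab] at this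
        exact Nat.mul_le_mul_left _ this
    have hgd : ∀ e ∈ F \ Bad, (n + 2) * (nbs r Ind (F.erase e)).card ≤ (n + 2) * a + b := by
      intro e he
      rw [Finset.mem_sdiff] at he
      exact ih (F.erase e) ((Finset.erase_subset _ _).trans hFE) (hgood e he.1 he.2) (by
          rw [Finset.card_erase_of_mem he.1, hc]; omega)
    have htot : (n + 2) * ((n + 3) * (nbs r Ind F).card) ≤
        Bad.card * ((n + 2) * (a + b)) + (F \ Bad).card * ((n + 2) * a + b) := by
      rw [← hsum, Finset.mul_sum, ← Finset.sum_sdiff hBadF, add_comm]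
      apply Nat.add_le_add
      · calc _ ≤ ∑ _e ∈ Bad, (n + 2) * (a + b) := Finset.sum_le_sum hbad
          _ = _ := by rw [Finset.sum_const, smul_eq_mul]
      · calc _ ≤ ∑ _e ∈ F \ Bad, ((n + 2) * a + b) := Finset.sum_le_sum hgd
          _ = _ := by rw [Finset.sum_const, smul_eq_mul]
    have hcs : (F \ Bad).card + Bad.card = r + n + 3 := by
      rw [Finset.card_sdiff_of_subset hBadF, hc]
      have := Finset.card_le_card hBadF
      omega
    have htot2 : Bad.card * ((n + 2) * (a + b)) + (F \ Bad).card * ((n + 2) * a + b) ≤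
        2 * ((n + 2) * (a + b)) + (r + n + 1) * ((n + 2) * a + b) := by
      obtain ⟨t, ht⟩ : ∃ t, Bad.card + t = 2 := ⟨2 - Bad.card, by omega⟩
      have h5 : (F \ Bad).card = r + n + 1 + t := by omega
      rw [h5]
      have h6 : (n + 2) * a + b ≤ (n + 2) * (a + b) := by nlinarith
      have h7 : 2 * ((n + 2) * (a + b)) = Bad.card * ((n + 2) * (a + b)) + t * ((n + 2) * (a + b)) := by
        rw [← add_mul, ht]
      rw [h7]
      nlinarith [Nat.mul_le_mul_left t h6]
    have id1 : (r + n + 1) * a = (n + 1) * (a + b) := by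
      rw [← hab, ha]
      have := Nat.choose_mul_succ_eq (r + n) r
      rw [show r + n + 1 - r = n + 1 by omega] at this
      linarith
    have id2 : (r + n + 1) * b = (n + 2) * (r + n + 1).choose (r - 1) := by
      rw [hb]
      have := Nat.choose_mul_succ_eq (r + n) (r - 1)
      rw [show r + n + 1 - (r - 1) = n + 2 by omega] at this
      linarith
    have hfin : (n + 2) * ((n + 3) * (nbs r Ind F).card) ≤
        (n + 2) * ((n + 3) * (a + b) + (r + n + 1).choose (r - 1)) := by
      refine htot.trans (htot2.trans (le_of_eq ?_))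
      have h8 : (r + n + 1) * ((n + 2) * a + b) = (n + 2) * ((r + n + 1) * a) + (r + n + 1) * b := by
        ring
      rw [h8, id1, id2]
      ring
    have hfin2 := Nat.le_of_mul_le_mul_left hfin (by omega)
    rw [show r + (n + 1) = r + n + 1 by ring, hab, show n + 1 + 2 = n + 3 by ring]
    exact hfin2

end Pool.Agent.Q164.Pav
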