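import Mathlib

/-!
# Polynomials with convex coefficients have no zeros in the open unit disk
-/

set_option autoImplicit false

namespace Pool.Agent.Q164.Pav

open Finset

/-- `1 + w + ... + w^(n-1)` -/
noncomputable def s (w : ℂ) (n : ℕ) : ℂ := ∑ i ∈ range n, w ^ i

/-- `n / 2 + (n - 1) w + ... + w^(n-1)` -/
noncomputable def F (w : ℂ) : ℕ → ℂ
  | 0 => 0
  | n + 1 => F w n + (s w (n + 1) - 1 / 2)

lemma s_succ (w : ℂ) (n : ℕ) : s w (n + 1) = 1 + w * s w n := by
  unfold s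
  rw [Finset.sum_range_succ', Finset.mul_sum, pow_zero, add_comm]
  congr 1
  exact Finset.sum_congr rfl fun i _ => by ring

lemma F_re (w : ℂ) (n : ℕ) : 2 * (F w (n + 1)).re = ‖s w (n + 1)‖ ^ 2 +
    (1 - ‖w‖ ^ 2) * ∑ k ∈ range n, ‖s w (k + 1)‖ ^ 2 := by
  induction n with
  | zero =>
    simp [F, s]
    norm_num
  | succ n ih =>
    have h1 : F w (n + 1 + 1) = F w (n + 1) + (s w (n + 1 + 1) - 1 / 2) := rfl
    rw [h1, Complex.add_re, mul_add, ih, Finset.sum_range_succ]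
    have h2 : ‖w‖ ^ 2 * ‖s w (n + 1)‖ ^ 2 = ‖s w (n + 1 + 1)‖ ^ 2 - 2 * (s w (n + 1 + 1)).re + 1 := by
      have h3 : w * s w (n + 1) = s w (n + 1 + 1) - 1 := by
        rw [s_succ w (n + 1)]
        ring
      rw [← mul_pow, ← norm_mul, h3, ← Complex.normSq_eq_norm_sq, ← Complex.normSq_eq_norm_sq,
        Complex.normSq_apply, Complex.normSq_apply]
      simp only [Complex.sub_re, Complex.one_re, Complex.sub_im, Complex.one_im]
      ring
    have h4 : (s w (n + 1 + 1) - 1 / 2 : ℂ).re = (s w (n + 1 + 1)).re - 1 / 2 := by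
      simp
    rw [h4]
    linarith

lemma F_re_pos (w : ℂ) (hw : ‖w‖ < 1) (n : ℕ) : 0 < (F w (n + 1)).re := by
  have h := F_re w n
  have h1 : 0 < 1 - ‖w‖ ^ 2 := by
    have := norm_nonneg w
    nlinarith
  rcases n with _ | n
  · simp [F, s]
    norm_num
  · have h2 : (1 : ℝ) ≤ ∑ k ∈ range (n + 1), ‖s w (k + 1)‖ ^ 2 := by
      rw [Finset.sum_range_succ']
      have h3 : ‖s w (0 + 1)‖ ^ 2 = 1 := by simp [s]
      have h4 : 0 ≤ ∑ k ∈ range n, ‖s w (k + 1 + 1)‖ ^ 2 := Finset.sum_nonneg fun _ _ => by positivity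
      linarith
    have h5 : 0 ≤ ‖s w (n + 1 + 1)‖ ^ 2 := by positivity
    nlinarith

lemma F_second (w : ℂ) (n : ℕ) : F w (n + 2) - 2 * F w (n + 1) + F w n = w ^ (n + 1) := by
  have h1 : F w (n + 2) = F w (n + 1) + (s w (n + 2) - 1 / 2) := rfl
  have h2 : F w (n + 1) = F w n + (s w (n + 1) - 1 / 2) := rfl
  have h3 : s w (n + 2) = s w (n + 1) + w ^ (n + 1) := by
    unfold s
    rw [Finset.sum_range_succ]
  rw [h1, h2, h3]
  ring

/-- summation by parts -/
lemma parts (w : ℂ) (b : ℕ → ℝ) (M : ℕ) :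
    ∑ n ∈ range M, ((b n - 2 * b (n + 1) + b (n + 2) : ℝ) : ℂ) * F w (n + 1) =
      (b 0 : ℂ) / 2 + ∑ n ∈ range M, (b (n + 1) : ℂ) * w ^ (n + 1) - b M * F w (M + 1) +
        b (M + 1) * F w M := by
  induction M with
  | zero =>
    simp [F, s]
    ring
  | succ M ih =>
    rw [Finset.sum_range_succ, ih, Finset.sum_range_succ]
    have h := F_second w M
    push_cast
    linear_combination (b (M + 1) : ℂ) * h

/-- **Fejér.** If `2 a₀ - 2 a₁ + a₂ ≥ 0`, `a` is convex from `a₁` on, vanishes from some point on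
and `a₀ > 0`, then `∑ aⱼ wʲ` has positive real part in the open unit disk. -/
theorem fejer (a : ℕ → ℝ) (R : ℕ) (ha : ∀ j, R < j → a j = 0) (h0 : 0 < a 0)
    (h1 : 0 ≤ 2 * a 0 - 2 * a 1 + a 2) (h2 : ∀ j, 0 ≤ a (j + 1) - 2 * a (j + 2) + a (j + 3))
    (w : ℂ) (hw : ‖w‖ < 1) : 0 < (∑ j ∈ range (R + 1), (a j : ℂ) * w ^ j).re := by
  let b : ℕ → ℝ := fun j => if j = 0 then 2 * a 0 else a j
  have hb0 : b 0 = 2 * a 0 := rfl
  have hb : ∀ j, b (j + 1) = a (j + 1) := fun j => rfl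
  have hnn : ∀ n, 0 ≤ b n - 2 * b (n + 1) + b (n + 2) := by
    intro n
    rcases n with _ | n
    · rw [hb0, hb, hb]; exact h1
    · rw [hb, hb, hb]; exact h2 n
  have hp := parts w b (R + 1)
  have e1 : b (R + 1) = 0 := by rw [hb]; exact ha _ (by omega)
  have e2 : b (R + 1 + 1) = 0 := by rw [hb]; exact ha _ (by omega)
  rw [e1, e2] at hp
  have e3 : (∑ j ∈ range (R + 1), (a j : ℂ) * w ^ j) =
      ∑ n ∈ range (R + 1), ((b n - 2 * b (n + 1) + b (n + 2) : ℝ) : ℂ) * F w (n + 1) := by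
    rw [hp, hb0, Finset.sum_range_succ', Finset.sum_range_succ]
    simp only [hb, ha (R + 1) (by omega)]
    push_cast
    ring
  rw [e3, Complex.re_sum]
  have e4 : ∀ n, (((b n - 2 * b (n + 1) + b (n + 2) : ℝ) : ℂ) * F w (n + 1)).re =
      (b n - 2 * b (n + 1) + b (n + 2)) * (F w (n + 1)).re := by
    intro n
    rw [Complex.re_ofReal_mul]
  -- some second difference is positive
  have hex : ∃ n ∈ range (R + 1), 0 < b n - 2 * b (n + 1) + b (n + 2) := by
    by_contra hcon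
    push Not at hcon
    have hz : ∀ n < R + 1, b n - 2 * b (n + 1) + b (n + 2) = 0 := fun n hn =>
      le_antisymm (hcon n (Finset.mem_range.2 hn)) (hnn n)
    have hall : ∀ i, i ≤ R + 1 → b (R + 1 - i) = 0 ∧ b (R + 1 - i + 1) = 0 := by
      intro i
      induction i with
      | zero =>
        intro _
        exact ⟨e1, e2⟩
      | succ i ih =>
        intro hi
        obtain ⟨c1, c2⟩ := ih (by omega)
        have hh := hz (R + 1 - (i + 1)) (by omega)
        have k1 : R + 1 - (i + 1) + 1 = R + 1 - i := by omega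
        have k2 : R + 1 - (i + 1) + 2 = R + 1 - i + 1 := by omega
        rw [k2, k1, c1, c2] at hh
        rw [k1]
        exact ⟨by linarith, c1⟩
    have := (hall (R + 1) le_rfl).1
    rw [Nat.sub_self, hb0] at this
    linarith
  obtain ⟨n0, hn0, hpos⟩ := hex
  refine Finset.sum_pos' (fun n _ => ?_) ⟨n0, hn0, ?_⟩
  · rw [e4]
    exact mul_nonneg (hnn n) (F_re_pos w hw n).le
  · rw [e4]
    exact mul_pos hpos (F_re_pos w hw n0)

end Pool.Agent.Q164.Pav
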