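import Pool.Agent.Q164.Pav.Fejer

/-!
# The H-polynomials of paving matroids: location of the roots
-/

set_option autoImplicit false

namespace Pool.Agent.Q164.Pav

open Finset

/-- `A n i = binom(N + i - 1, i)` with `N = n + 2` -/
def A (n i : ℕ) : ℕ := (n + 1 + i).choose i

lemma A_zero (n : ℕ) : A n 0 = 1 := by simp [A]

lemma A_one (n : ℕ) : A n 1 = n + 2 := by simp [A]

lemma A_succ (n i : ℕ) : A n (i + 1) = A n i + (n + 1 + i).choose (i + 1) := by
  unfold A
  rw [show n + 1 + (i + 1) = (n + 1 + i) + 1 by ring, Nat.choose_succ_succ]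

lemma A_second (n i : ℕ) : A n (i + 2) + A n i = 2 * A n (i + 1) + (n + 1 + i).choose (i + 2) := by
  have h1 := A_succ n (i + 1)
  have h2 := A_succ n i
  have h3 : (n + 1 + (i + 1)).choose (i + 1 + 1) = (n + 1 + i).choose (i + 1) +
      (n + 1 + i).choose (i + 2) := by
    rw [show n + 1 + (i + 1) = (n + 1 + i) + 1 by ring, Nat.choose_succ_succ]
  rw [h3] at h1
  rw [show i + 1 + 1 = i + 2 by ring] at h1
  omega

lemma A_ratio (n i : ℕ) : A n (i + 1) * (i + 1) = A n i * (n + 2 + i) := by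
  unfold A
  have h := Nat.add_one_mul_choose_eq (n + 1 + i) i
  rw [show n + 1 + (i + 1) = (n + 1 + i) + 1 by ring, ← h, mul_comm]
  ring

lemma A_pos (n i : ℕ) : 0 < A n i := by
  unfold A
  exact Nat.choose_pos (by omega)

/-- the reversed polynomial -/
noncomputable def G (n r H : ℕ) (w : ℂ) : ℂ :=
  (H : ℂ) + ∑ j ∈ range r, (A n (r - 1 - j) : ℂ) * w ^ (j + 1)

/-- coefficients of the reversed polynomial -/
noncomputable def cf (n r H : ℕ) (j : ℕ) : ℝ :=
  if j = 0 then (H : ℝ) else if j ≤ r then (A n (r - j) : ℝ) else 0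

lemma G_eq (n r H : ℕ) (w : ℂ) : G n r H w = ∑ j ∈ range (r + 1), (cf n r H j : ℂ) * w ^ j := by
  unfold G
  rw [Finset.sum_range_succ', add_comm]
  congr 1
  · refine Finset.sum_congr rfl fun j hj => ?_
    rw [Finset.mem_range] at hj
    unfold cf
    rw [if_neg (by omega), if_pos (by omega)]
    rw [show r - 1 - j = r - (j + 1) by omega]
    push_cast
    rfl
  · simp [cf]

lemma G_re_pos (n r H : ℕ) (hr : 1 ≤ r) (hH : 0 < H)
    (hc : 2 * A n (r - 1) ≤ 2 * H + (if 2 ≤ r then A n (r - 2) else 0)) (w : ℂ) (hw : ‖w‖ < 1) :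
    0 < (G n r H w).re := by
  rw [G_eq]
  apply fejer (cf n r H) r _ _ _ _ w hw
  · intro j hj
    unfold cf
    rw [if_neg (by omega), if_neg (by omega)]
  · unfold cf
    rw [if_pos rfl]
    exact_mod_cast hH
  · have h0 : cf n r H 0 = H := by unfold cf; rw [if_pos rfl]
    have h1 : cf n r H 1 = A n (r - 1) := by unfold cf; rw [if_neg (by omega), if_pos hr]
    have h2 : cf n r H 2 = ((if 2 ≤ r then A n (r - 2) else 0 : ℕ) : ℝ) := by
      unfold cf
      rw [if_neg (by omega)]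
      split_ifs <;> simp
    rw [h0, h1, h2]
    have : (2 * A n (r - 1) : ℝ) ≤ 2 * H + ((if 2 ≤ r then A n (r - 2) else 0 : ℕ) : ℝ) := by
      exact_mod_cast hc
    linarith
  · intro j
    rcases Nat.lt_or_ge r (j + 1) with h | h
    · have h1 : cf n r H (j + 1) = 0 := by unfold cf; rw [if_neg (by omega), if_neg (by omega)]
      have h2 : cf n r H (j + 2) = 0 := by unfold cf; rw [if_neg (by omega), if_neg (by omega)]
      have h3 : cf n r H (j + 3) = 0 := by unfold cf; rw [if_neg (by omega), if_neg (by omega)]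
      rw [h1, h2, h3]; norm_num
    rcases Nat.lt_or_ge r (j + 2) with h' | h'
    · have hr' : r = j + 1 := by omega
      have h1 : cf n r H (j + 1) = 1 := by
        unfold cf; rw [if_neg (by omega), if_pos (by omega), hr', Nat.sub_self, A_zero]; simp
      have h2 : cf n r H (j + 2) = 0 := by unfold cf; rw [if_neg (by omega), if_neg (by omega)]
      have h3 : cf n r H (j + 3) = 0 := by unfold cf; rw [if_neg (by omega), if_neg (by omega)]
      rw [h1, h2, h3]; norm_num
    rcases Nat.lt_or_ge r (j + 3) with h'' | h''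
    · have hr' : r = j + 2 := by omega
      have h1 : cf n r H (j + 1) = n + 2 := by
        unfold cf
        rw [if_neg (by omega), if_pos (by omega), hr', show j + 2 - (j + 1) = 1 by omega, A_one]
        push_cast; ring
      have h2 : cf n r H (j + 2) = 1 := by
        unfold cf; rw [if_neg (by omega), if_pos (by omega), hr', Nat.sub_self, A_zero]; simp
      have h3 : cf n r H (j + 3) = 0 := by unfold cf; rw [if_neg (by omega), if_neg (by omega)]
      rw [h1, h2, h3]
      have : (0 : ℝ) ≤ n := Nat.cast_nonneg n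
      linarith
    · obtain ⟨i, rfl⟩ : ∃ i, r = i + (j + 3) := ⟨r - (j + 3), by omega⟩
      have h1 : cf n (i + (j + 3)) H (j + 1) = A n (i + 2) := by
        unfold cf
        rw [if_neg (by omega), if_pos (by omega), show i + (j + 3) - (j + 1) = i + 2 by omega]
      have h2 : cf n (i + (j + 3)) H (j + 2) = A n (i + 1) := by
        unfold cf
        rw [if_neg (by omega), if_pos (by omega), show i + (j + 3) - (j + 2) = i + 1 by omega]
      have h3 : cf n (i + (j + 3)) H (j + 3) = A n i := by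
        unfold cf
        rw [if_neg (by omega), if_pos (by omega), show i + (j + 3) - (j + 3) = i by omega]
      rw [h1, h2, h3]
      have h4 : ((A n (i + 2) + A n i : ℕ) : ℝ) = ((2 * A n (i + 1) + (n + 1 + i).choose (i + 2) : ℕ) : ℝ) := by
        rw [A_second]
      push_cast at h4
      have h5 : (0 : ℝ) ≤ ((n + 1 + i).choose (i + 2) : ℕ) := Nat.cast_nonneg _
      linarith

/-! ### Special cases -/

lemma one_add_ne {w : ℂ} (hw : ‖w‖ < 1) : 1 + w ≠ 0 := by
  intro h
  have : w = -1 := by linear_combination h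
  rw [this] at hw
  simp at hw

lemma re_gt {w : ℂ} (hw : ‖w‖ < 1) : -1 < w.re := by
  have := (abs_lt.1 (lt_of_le_of_lt (Complex.abs_re_le_norm w) hw)).1
  exact this

/-- rank two -/
lemma G_two (n : ℕ) (w : ℂ) (hw : ‖w‖ < 1) : G n 2 (n + 1) w ≠ 0 := by
  have h : G n 2 (n + 1) w = (1 + w) * ((n : ℂ) + 1 + w) := by
    unfold G
    rw [Finset.sum_range_succ, Finset.sum_range_succ, Finset.sum_range_zero]
    simp only [Nat.sub_zero, Nat.sub_self]
    rw [show 2 - 1 = 1 from rfl, A_one, A_zero]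
    push_cast
    ring
  rw [h]
  apply mul_ne_zero (one_add_ne hw)
  intro h0
  have h1 : ((n : ℂ) + 1 + w).re = 0 := by rw [h0]; rfl
  simp at h1
  have := re_gt hw
  have h2 : (0 : ℝ) ≤ n := Nat.cast_nonneg n
  linarith

/-- rank three, `N ≥ 3` -/
lemma G_three (n H : ℕ) (hn : 1 ≤ n) (hH : (n + 1) * (n + 3) ≤ 2 * H) (w : ℂ) (hw : ‖w‖ < 1) :
    G n 3 H w ≠ 0 := by
  -- N = n + 2
  have hA2 : (A n 2 : ℝ) = (n + 2) * (n + 3) / 2 := by
    have h := A_ratio n 1
    rw [A_one] at h
    have h' : ((A n (1 + 1) * (1 + 1) : ℕ) : ℝ) = (((n + 2) * (n + 2 + 1) : ℕ) : ℝ) := by rw [h]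
    push_cast at h'
    linarith
  have hG : G n 3 H w = (4 + 6 * w + 3 * w ^ 2 + w ^ 3) + ((n : ℂ) - 1) * F w 3 +
      (((n : ℂ) + 1) * n / 2 - 1) * F w 2 + ((H : ℂ) - (n + 1) * (n + 3) / 2) := by
    have hA2' : (A n 2 : ℂ) = ((n : ℂ) + 2) * (n + 3) / 2 := by
      have : ((A n 2 : ℝ) : ℂ) = (((n + 2) * (n + 3) / 2 : ℝ) : ℂ) := by rw [hA2]
      push_cast at this
      exact this
    unfold G
    rw [Finset.sum_range_succ, Finset.sum_range_succ, Finset.sum_range_succ, Finset.sum_range_zero]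
    simp only [Nat.sub_zero, Nat.sub_self]
    rw [show 3 - 1 = 2 from rfl, show 2 - 1 = 1 from rfl, A_one, A_zero, hA2']
    have e2 : F w 2 = 1 + w := by
      simp [F, s, Finset.sum_range_succ]
      ring
    have e3 : F w 3 = 3 / 2 + 2 * w + w ^ 2 := by
      simp [F, s, Finset.sum_range_succ]
      ring
    rw [e2, e3]
    push_cast
    ring
  intro h0
  have h1 : (G n 3 H w).re = 0 := by rw [h0]; rfl
  rw [hG] at h1
  have e1 : (4 + 6 * w + 3 * w ^ 2 + w ^ 3 : ℂ).re = 4 + 6 * w.re + 3 * (w.re ^ 2 - w.im ^ 2) +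
      (w.re ^ 3 - 3 * w.re * w.im ^ 2) := by
    simp [pow_succ, Complex.mul_re, Complex.mul_im]
    ring
  have e2 : (((n : ℂ) - 1) * F w 3).re = ((n : ℝ) - 1) * (F w 3).re := by
    have : ((n : ℂ) - 1) = (((n : ℝ) - 1 : ℝ) : ℂ) := by push_cast; rfl
    rw [this, Complex.re_ofReal_mul]
  have e3 : ((((n : ℂ) + 1) * n / 2 - 1) * F w 2).re = (((n : ℝ) + 1) * n / 2 - 1) * (F w 2).re := by
    have : (((n : ℂ) + 1) * n / 2 - 1) = ((((n : ℝ) + 1) * n / 2 - 1 : ℝ) : ℂ) := by push_cast; rfl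
    rw [this, Complex.re_ofReal_mul]
  have e4 : ((H : ℂ) - ((n : ℂ) + 1) * (n + 3) / 2).re = (H : ℝ) - ((n : ℝ) + 1) * (n + 3) / 2 := by
    have : ((H : ℂ) - ((n : ℂ) + 1) * (n + 3) / 2) = (((H : ℝ) - ((n : ℝ) + 1) * (n + 3) / 2 : ℝ) : ℂ) := by
      push_cast; rfl
    rw [this, Complex.ofReal_re]
  rw [Complex.add_re, Complex.add_re, Complex.add_re, e1, e2, e3, e4] at h1
  have hn' : (1 : ℝ) ≤ n := by exact_mod_cast hn
  have hH' : ((n : ℝ) + 1) * (n + 3) ≤ 2 * H := by exact_mod_cast hH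
  have p3 := F_re_pos w hw 2
  have p2 := F_re_pos w hw 1
  have hx := re_gt hw
  have hnorm : w.re ^ 2 + w.im ^ 2 < 1 := by
    have h5 : ‖w‖ ^ 2 < 1 := by
      have := norm_nonneg w
      nlinarith
    rw [← Complex.normSq_eq_norm_sq, Complex.normSq_apply] at h5
    nlinarith
  have q1 : 0 ≤ ((n : ℝ) - 1) * (F w 3).re := mul_nonneg (by linarith) p3.le
  have q2 : 0 ≤ (((n : ℝ) + 1) * n / 2 - 1) * (F w 2).re := mul_nonneg (by nlinarith) p2.le
  have q3 : 0 < 4 + 6 * w.re + 3 * (w.re ^ 2 - w.im ^ 2) + (w.re ^ 3 - 3 * w.re * w.im ^ 2) := by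
    set x := w.re
    set y := w.im
    have e5 : 4 + 6 * x + 3 * (x ^ 2 - y ^ 2) + (x ^ 3 - 3 * x * y ^ 2) =
        (1 + x) * (1 + 2 * x + 4 * x ^ 2) + 3 * (1 + x) * (1 - (x ^ 2 + y ^ 2)) := by ring
    rw [e5]
    have : 0 < 1 + 2 * x + 4 * x ^ 2 := by nlinarith [sq_nonneg (1 + 4 * x)]
    have h7 : 0 < (1 + x) * (1 + 2 * x + 4 * x ^ 2) := mul_pos (by linarith) this
    have h8 : 0 ≤ 3 * (1 + x) * (1 - (x ^ 2 + y ^ 2)) := mul_nonneg (by linarith) (by linarith)
    linarith
  linarith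

/-- `N = 2`, `2 H = r` -/
lemma G_even (l : ℕ) (hl : 1 ≤ l) (w : ℂ) (hw : ‖w‖ < 1) : G 0 (2 * l) l w ≠ 0 := by
  have hA : ∀ i, A 0 i = i + 1 := by
    intro i
    unfold A
    rw [show 0 + 1 + i = i + 1 by ring, Nat.choose_succ_self_right]
  have hG : ∀ l, G 0 (2 * l) l w = (1 + w) ^ 2 * ∑ j ∈ range l, ((l - j : ℕ) : ℂ) * (w ^ 2) ^ j := by
    intro l
    induction l with
    | zero => simp [G]
    | succ l ih =>
      have h1 : G 0 (2 * (l + 1)) (l + 1) w = G 0 (2 * l) l w + (1 + w) ^ 2 * ∑ j ∈ range (l + 1), (w ^ 2) ^ j := by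
        have h2 : (1 + w) ^ 2 * ∑ j ∈ range (l + 1), (w ^ 2) ^ j =
            1 + 2 * (∑ j ∈ range (2 * l + 1), w ^ (j + 1)) + w ^ (2 * l + 2) := by
          clear ih hl
          induction l with
          | zero => simp; ring
          | succ l ih2 =>
            rw [Finset.sum_range_succ, mul_add, ih2]
            rw [show 2 * (l + 1) + 1 = 2 * l + 1 + 1 + 1 by ring, Finset.sum_range_succ _ (2 * l + 1 + 1),
              Finset.sum_range_succ _ (2 * l + 1)]
            ring
        rw [h2]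
        unfold G
        have h3 : ∑ j ∈ range (2 * (l + 1)), (A 0 (2 * (l + 1) - 1 - j) : ℂ) * w ^ (j + 1) =
            ∑ j ∈ range (2 * l), (A 0 (2 * l - 1 - j) : ℂ) * w ^ (j + 1) +
              2 * (∑ j ∈ range (2 * l), w ^ (j + 1)) + 2 * w ^ (2 * l + 1) + w ^ (2 * l + 2) := by
          rw [show 2 * (l + 1) = 2 * l + 1 + 1 by ring, Finset.sum_range_succ, Finset.sum_range_succ]
          have h4 : ∑ j ∈ range (2 * l), (A 0 (2 * l + 1 + 1 - 1 - j) : ℂ) * w ^ (j + 1) =
              ∑ j ∈ range (2 * l), ((A 0 (2 * l - 1 - j) : ℂ) * w ^ (j + 1) + 2 * w ^ (j + 1)) := by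
            refine Finset.sum_congr rfl fun j hj => ?_
            rw [Finset.mem_range] at hj
            rw [hA, hA]
            have : 2 * l + 1 + 1 - 1 - j + 1 = (2 * l - 1 - j + 1) + 2 := by omega
            rw [this]
            push_cast
            ring
          rw [h4, Finset.sum_add_distrib, ← Finset.mul_sum]
          have h5 : 2 * l + 1 + 1 - 1 - 2 * l = 1 := by omega
          have h6 : 2 * l + 1 + 1 - 1 - (2 * l + 1) = 0 := by omega
          rw [h5, h6, A_zero, A_one]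
          push_cast
          ring
        rw [h3, Finset.sum_range_succ]
        push_cast
        ring
      rw [h1, ih, ← mul_add]
      congr 1
      rw [Finset.sum_range_succ, Finset.sum_range_succ]
      have h7 : ∑ j ∈ range l, ((l + 1 - j : ℕ) : ℂ) * (w ^ 2) ^ j =
          ∑ j ∈ range l, (((l - j : ℕ) : ℂ) * (w ^ 2) ^ j + (w ^ 2) ^ j) := by
        refine Finset.sum_congr rfl fun j hj => ?_
        rw [Finset.mem_range] at hj
        rw [show l + 1 - j = (l - j) + 1 by omega]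
        push_cast
        ring
      rw [h7, Finset.sum_add_distrib]
      have h8 : l + 1 - l = 1 := by omega
      rw [h8]
      push_cast
      ring
  rw [hG]
  apply mul_ne_zero (pow_ne_zero _ (one_add_ne hw))
  have hw2 : ‖w ^ 2‖ < 1 := by
    rw [norm_pow]
    have := norm_nonneg w
    nlinarith
  have hF : ∀ l, ∑ j ∈ range l, ((l - j : ℕ) : ℂ) * (w ^ 2) ^ j = F (w ^ 2) l + l / 2 := by
    intro l
    induction l with
    | zero => simp [F]
    | succ l ih =>
      rw [Finset.sum_range_succ]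
      have h7 : ∑ j ∈ range l, ((l + 1 - j : ℕ) : ℂ) * (w ^ 2) ^ j =
          ∑ j ∈ range l, (((l - j : ℕ) : ℂ) * (w ^ 2) ^ j + (w ^ 2) ^ j) := by
        refine Finset.sum_congr rfl fun j hj => ?_
        rw [Finset.mem_range] at hj
        rw [show l + 1 - j = (l - j) + 1 by omega]
        push_cast
        ring
      rw [h7, Finset.sum_add_distrib, ih]
      have h8 : l + 1 - l = 1 := by omega
      have h9 : F (w ^ 2) (l + 1) = F (w ^ 2) l + (s (w ^ 2) (l + 1) - 1 / 2) := rfl
      have h10 : s (w ^ 2) (l + 1) = ∑ j ∈ range l, (w ^ 2) ^ j + (w ^ 2) ^ l := by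
        unfold s
        rw [Finset.sum_range_succ]
      rw [h8, h9, h10]
      push_cast
      ring
  rw [hF]
  obtain ⟨m, rfl⟩ : ∃ m, l = m + 1 := ⟨l - 1, by omega⟩
  intro h0
  have h1 : (F (w ^ 2) (m + 1) + ((m + 1 : ℕ) : ℂ) / 2).re = 0 := by rw [h0]; rfl
  have h2 := F_re_pos (w ^ 2) hw2 m
  have h3 : (((m + 1 : ℕ) : ℂ) / 2).re = ((m + 1 : ℕ) : ℝ) / 2 := by
    have : (((m + 1 : ℕ) : ℂ) / 2) = ((((m + 1 : ℕ) : ℝ) / 2 : ℝ) : ℂ) := by push_cast; rfl
    rw [this, Complex.ofReal_re]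
  rw [Complex.add_re, h3] at h1
  have : (0 : ℝ) ≤ ((m + 1 : ℕ) : ℝ) / 2 := by positivity
  linarith

/-! ### The combination -/

lemma A_zero_eq (i : ℕ) : A 0 i = i + 1 := by
  unfold A
  rw [show 0 + 1 + i = i + 1 by ring, Nat.choose_succ_self_right]

lemma A_two (n : ℕ) : 2 * A n 2 = (n + 2) * (n + 3) := by
  have h := A_ratio n 1
  rw [A_one] at h
  rw [show 1 + 1 = 2 from rfl] at h
  linarith

lemma G_ne (n r H : ℕ) (hr : 1 ≤ r) (h : (n + 1) * A n (r - 1) ≤ (n + 2) * H) (w : ℂ)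
    (hw : ‖w‖ < 1) : G n r H w ≠ 0 := by
  have hApos := A_pos n (r - 1)
  have hH : 0 < H := by
    rcases Nat.eq_zero_or_pos H with h0 | h0
    · rw [h0, mul_zero] at h
      have : 0 < (n + 1) * A n (r - 1) := by positivity
      omega
    · exact h0
  by_cases hc : 2 * A n (r - 1) ≤ 2 * H + (if 2 ≤ r then A n (r - 2) else 0)
  · intro h0
    have := G_re_pos n r H hr hH hc w hw
    rw [h0] at this
    exact lt_irrefl _ this
  push Not at hc
  rcases (by omega : r = 1 ∨ r = 2 ∨ r = 3 ∨ 4 ≤ r) with rfl | rfl | rfl | hr4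
  · exfalso
    rw [if_neg (by norm_num), Nat.sub_self, A_zero] at hc
    omega
  · rw [if_pos (by norm_num)] at hc
    simp only [Nat.sub_self, A_zero] at hc
    rw [show 2 - 1 = 1 from rfl, A_one] at hc h
    have h1 : n + 1 ≤ H := by
      by_contra hcon
      push Not at hcon
      have : (n + 2) * H < (n + 2) * (n + 1) := by
        apply Nat.mul_lt_mul_of_pos_left hcon (by omega)
      nlinarith
    have : H = n + 1 := by omega
    subst this
    exact G_two n w hw
  · rw [if_pos (by norm_num)] at hc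
    rw [show 3 - 1 = 2 from rfl] at h hc
    rw [show 3 - 2 = 1 from rfl, A_one] at hc
    have hA := A_two n
    have h1 : (n + 1) * (n + 3) ≤ 2 * H := by
      by_contra hcon
      push Not at hcon
      have : (n + 2) * (2 * H) < (n + 2) * ((n + 1) * (n + 3)) := by
        apply Nat.mul_lt_mul_of_pos_left hcon (by omega)
      nlinarith
    rcases Nat.eq_zero_or_pos n with h0 | h0
    · exfalso
      subst h0
      omega
    · exact G_three n H h0 h1 w hw
  · obtain ⟨i, rfl⟩ : ∃ i, r = i + 2 := ⟨r - 2, by omega⟩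
    rw [if_pos (by omega)] at hc
    rw [show i + 2 - 1 = i + 1 by omega] at h hc
    rw [show i + 2 - 2 = i by omega] at hc
    have hrat := A_ratio n i
    have hAi := A_pos n i
    have k1 : (n + 2) * A n i < 2 * A n (i + 1) := by
      have : (n + 2) * (2 * H + A n i) < (n + 2) * (2 * A n (i + 1)) :=
        Nat.mul_lt_mul_of_pos_left hc (by omega)
      nlinarith
    have k2 : (n + 2) * (i + 1) < 2 * (n + 2 + i) := by
      have : (n + 2) * A n i * (i + 1) < 2 * A n (i + 1) * (i + 1) :=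
        Nat.mul_lt_mul_of_pos_right k1 (by omega)
      have h5 : A n i * ((n + 2) * (i + 1)) < A n i * (2 * (n + 2 + i)) := by nlinarith
      exact Nat.lt_of_mul_lt_mul_left h5
    obtain ⟨j, rfl⟩ : ∃ j, i = j + 2 := ⟨i - 2, by omega⟩
    have k3 : n * (j + 1) < 2 := by nlinarith
    rcases Nat.eq_zero_or_pos n with h0 | h0
    · subst h0
      rw [A_zero_eq] at h hc
      rw [A_zero_eq] at hc
      have : j + 2 + 2 = 2 * H := by omega
      rw [this]
      exact G_even H hH w hw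
    · exfalso
      have hn1 : n = 1 := by nlinarith
      subst hn1
      have hj0 : j = 0 := by omega
      subst hj0
      have a1 : A 1 (0 + 2 + 1) = 10 := by decide
      have a2 : A 1 (0 + 2) = 6 := by decide
      rw [a1] at h hc
      rw [a2] at hc
      omega

/-- **Location of the roots.** -/
theorem roots (n r H : ℕ) (hr : 1 ≤ r) (h : H = 0 ∨ (n + 1) * A n (r - 1) ≤ (n + 2) * H) (z : ℂ)
    (hz : 1 < ‖z‖) : ∑ i ∈ range r, (A n i : ℂ) * z ^ i + H * z ^ r ≠ 0 := by
  have hz0 : z ≠ 0 := by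
    intro h0
    rw [h0, norm_zero] at hz
    linarith
  have hw : ‖z⁻¹‖ < 1 := by
    rw [norm_inv]
    exact inv_lt_one_of_one_lt₀ hz
  have key : ∀ (r H : ℕ), G n r H z⁻¹ * z ^ r = ∑ i ∈ range r, (A n i : ℂ) * z ^ i + H * z ^ r := by
    intro r H
    unfold G
    rw [add_mul, add_comm]
    congr 1
    rw [Finset.sum_mul, ← Finset.sum_range_reflect]
    refine Finset.sum_congr rfl fun j hj => ?_
    rw [Finset.mem_range] at hj
    rw [show r - 1 - (r - 1 - j) = j by omega, show r - 1 - j + 1 = r - j by omega]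
    rw [mul_assoc]
    congr 1
    rw [inv_pow]
    have : z ^ r = z ^ (r - j) * z ^ j := by rw [← pow_add]; congr 1; omega
    rw [this, ← mul_assoc, inv_mul_cancel₀ (pow_ne_zero _ hz0), one_mul]
  rcases h with rfl | h
  · obtain ⟨r', rfl⟩ : ∃ r', r = r' + 1 := ⟨r - 1, by omega⟩
    have h1 : ∑ i ∈ range (r' + 1), (A n i : ℂ) * z ^ i + ((0 : ℕ) : ℂ) * z ^ (r' + 1) =
        G n r' (A n r') z⁻¹ * z ^ r' := by
      rw [key, Finset.sum_range_succ]
      simp
    rw [h1]
    apply mul_ne_zero _ (pow_ne_zero _ hz0)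
    rcases Nat.eq_zero_or_pos r' with h0 | h0
    · subst h0
      simp [G, A_zero]
    · intro h2
      have h3 := G_re_pos n r' (A n r') h0 (A_pos n r') ?_ z⁻¹ hw
      · rw [h2] at h3
        exact lt_irrefl _ h3
      · obtain ⟨i, rfl⟩ : ∃ i, r' = i + 1 := ⟨r' - 1, by omega⟩
        have := A_succ n i
        rw [show i + 1 - 1 = i by omega]
        omega
  · rw [← key]
    exact mul_ne_zero (G_ne n r H hr h _ hw) (pow_ne_zero _ hz0)

end Pool.Agent.Q164.Pav
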